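import Pool.Agent.Helper717.Hull2

/-!
Tools for MP_b29168_gt: circumscribed quadrilaterals, affine changes of coordinates,
lower bounds for areas by fans of triangles.
-/

set_option autoImplicit false

open MeasureTheory Set
open scoped ENNReal

namespace Pool.Agent.R758.CQ

open Pool.Agent.Helper717.Hull1 (orient half_convex half_convex' tri_iff bary or_cyc or_swap' or_swap
  or_self1 or_self2 or_self3 line_null)
open Pool.Agent.Helper717.Hull2 (tri_vol tri_vol_pos)

abbrev E2 := EuclideanSpace ℝ (Fin 2)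

/-- the point with the coordinates `x`, `y` -/
noncomputable def P (x y : ℝ) : E2 := !₂[x, y]

@[simp] lemma mk0 (x y : ℝ) : (P x y) 0 = x := rfl
@[simp] lemma mk1 (x y : ℝ) : (P x y) 1 = y := rfl

lemma ext2 {x y : E2} (h0 : x 0 = y 0) (h1 : x 1 = y 1) : x = y := by
  ext i; fin_cases i
  · exact h0
  · exact h1

lemma eta2 (x : E2) : P (x 0) (x 1) = x := ext2 rfl rfl

/-! ### Circumscribed quadrilaterals -/

/-- `K` is contained in the convex hull of four points which has area at most `A`. -/
def Circ (K : Set E2) (A : ℝ) : Prop :=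
  ∃ a b c d : E2, K ⊆ convexHull ℝ {a, b, c, d} ∧
    volume (convexHull ℝ ({a, b, c, d} : Set E2)) ≤ ENNReal.ofReal A

lemma Circ.mono {K : Set E2} {A B : ℝ} (h : Circ K A) (hAB : A ≤ B) : Circ K B := by
  obtain ⟨a, b, c, d, h1, h2⟩ := h
  exact ⟨a, b, c, d, h1, h2.trans (ENNReal.ofReal_le_ofReal hAB)⟩

lemma Circ.subset {K L : Set E2} {A : ℝ} (h : Circ L A) (hKL : K ⊆ L) : Circ K A := by
  obtain ⟨a, b, c, d, h1, h2⟩ := h
  exact ⟨a, b, c, d, hKL.trans h1, h2⟩

lemma circ_of_quad {K : Set E2} (a b c d : E2) (h1 : 0 < orient a b c) (h2 : 0 < orient a c d)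
    (h3 : 0 ≤ orient a b d) (h4 : 0 ≤ orient b c d)
    (hK : ∀ x ∈ K, 0 ≤ orient a b x ∧ 0 ≤ orient b c x ∧ 0 ≤ orient c d x ∧ 0 ≤ orient d a x)
    {A : ℝ} (hA : orient a b c + orient a c d ≤ 2 * A) : Circ K A := by
  have key : ∀ x : E2, 0 ≤ orient a b x → 0 ≤ orient b c x → 0 ≤ orient c d x → 0 ≤ orient d a x →
      x ∈ convexHull ℝ ({a, b, c} : Set E2) ∪ convexHull ℝ ({a, c, d} : Set E2) := by
    intro x e1 e2 e3 e4
    rcases le_total 0 (orient a c x) with h | h
    · right
      rw [tri_iff a c d x h2]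
      exact ⟨h, e3, e4⟩
    · left
      rw [tri_iff a b c x h1]
      refine ⟨e1, e2, ?_⟩
      rw [or_swap]; linarith
  have hsub : convexHull ℝ ({a, b, c, d} : Set E2) ⊆
      convexHull ℝ ({a, b, c} : Set E2) ∪ convexHull ℝ ({a, c, d} : Set E2) := by
    intro x hx
    have s1 : convexHull ℝ ({a, b, c, d} : Set E2) ⊆ {q | 0 ≤ orient a b q} := by
      apply convexHull_min _ (half_convex a b)
      rintro p (rfl | rfl | rfl | rfl)
      · simp [or_self3]
      · simp [or_self2]
      · exact h1.le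
      · exact h3
    have s2 : convexHull ℝ ({a, b, c, d} : Set E2) ⊆ {q | 0 ≤ orient b c q} := by
      apply convexHull_min _ (half_convex b c)
      rintro p (rfl | rfl | rfl | rfl)
      · simp only [mem_ofPred_eq]; rw [or_cyc]; exact h1.le
      · simp [or_self3]
      · simp [or_self2]
      · exact h4
    have s3 : convexHull ℝ ({a, b, c, d} : Set E2) ⊆ {q | 0 ≤ orient c d q} := by
      apply convexHull_min _ (half_convex c d)
      rintro p (rfl | rfl | rfl | rfl)
      · simp only [mem_ofPred_eq]; rw [or_cyc]; exact h2.le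
      · simp only [mem_ofPred_eq]; rw [or_cyc]; exact h4
      · simp [or_self3]
      · simp [or_self2]
    have s4 : convexHull ℝ ({a, b, c, d} : Set E2) ⊆ {q | 0 ≤ orient d a q} := by
      apply convexHull_min _ (half_convex d a)
      rintro p (rfl | rfl | rfl | rfl)
      · simp [or_self2]
      · simp only [mem_ofPred_eq]; rw [or_cyc, or_cyc]; exact h3
      · simp only [mem_ofPred_eq]; rw [or_cyc, or_cyc]; exact h2.le
      · simp [or_self3]
    exact key x (s1 hx) (s2 hx) (s3 hx) (s4 hx)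
  refine ⟨a, b, c, d, ?_, ?_⟩
  · intro x hx
    obtain ⟨e1, e2, e3, e4⟩ := hK x hx
    rcases key x e1 e2 e3 e4 with h | h
    · exact convexHull_mono (by intro y hy; simp only [mem_insert_iff, mem_singleton_iff] at *; tauto) h
    · exact convexHull_mono (by intro y hy; simp only [mem_insert_iff, mem_singleton_iff] at *; tauto) h
  · refine (measure_mono hsub).trans ((measure_union_le _ _).trans ?_)
    rw [tri_vol_pos a b c h1, tri_vol_pos a c d h2, ← ENNReal.ofReal_add (by linarith) (by linarith)]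
    exact ENNReal.ofReal_le_ofReal (by linarith)

/-! ### Affine maps -/

/-- the affine map with matrix `(p q; r s)` and translation `(u, v)` -/
noncomputable def fm (p q r s u v : ℝ) (x : E2) : E2 :=
  P (p * x 0 + q * x 1 + u) (r * x 0 + s * x 1 + v)

noncomputable def fmL (p q r s : ℝ) : E2 →ₗ[ℝ] E2 where
  toFun x := P (p * x 0 + q * x 1) (r * x 0 + s * x 1)
  map_add' x y := by
    ext i; fin_cases i <;> simp <;> ring
  map_smul' t x := by
    ext i; fin_cases i <;> simp <;> ring

lemma fmL_det (p q r s : ℝ) : LinearMap.det (fmL p q r s) = p * s - q * r := by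
  rw [← LinearMap.det_toMatrix (EuclideanSpace.basisFun (Fin 2) ℝ).toBasis, Matrix.det_fin_two]
  simp [LinearMap.toMatrix_apply, fmL]

noncomputable def fmA (p q r s u v : ℝ) : E2 →ᵃ[ℝ] E2 where
  toFun := fm p q r s u v
  linear := fmL p q r s
  map_vadd' x y := by
    ext i; fin_cases i <;> simp [fm, fmL] <;> ring

lemma fmA_apply (p q r s u v : ℝ) (x : E2) : fmA p q r s u v x = fm p q r s u v x := rfl

lemma fm_cont (p q r s u v : ℝ) : Continuous (fm p q r s u v) := by
  unfold fm P
  fun_prop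

lemma fm_pre (p q r s u v : ℝ) (K : Set E2) :
    fm p q r s u v ⁻¹' K = fmL p q r s ⁻¹' ((fun y => y + P (u) (v)) ⁻¹' K) := by
  ext x
  simp only [mem_preimage]
  have : fm p q r s u v x = fmL p q r s x + P (u) (v) := by
    ext i; fin_cases i <;> simp [fm, fmL]
  rw [this]

lemma vol_pre (p q r s u v : ℝ) (hD : p * s - q * r ≠ 0) (K : Set E2) :
    volume (fm p q r s u v ⁻¹' K) = ENNReal.ofReal |(p * s - q * r)⁻¹| * volume K := by
  rw [fm_pre, Measure.addHaar_preimage_linearMap volume (by rw [fmL_det]; exact hD), fmL_det,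
    measure_preimage_add_right]

lemma convex_pre (p q r s u v : ℝ) {K : Set E2} (hK : Convex ℝ K) :
    Convex ℝ (fm p q r s u v ⁻¹' K) := by
  exact hK.affine_preimage (fmA p q r s u v)

/-- the inverse map -/
lemma fm_inv (p q r s u v : ℝ) (hD : p * s - q * r ≠ 0) (y : E2) :
    fm p q r s u v (P ((s * (y 0 - u) - q * (y 1 - v)) / (p * s - q * r)) ((p * (y 1 - v) - r * (y 0 - u)) / (p * s - q * r))) = y := by
  ext i; fin_cases i
  · show p * ((s * (y 0 - u) - q * (y 1 - v)) / (p * s - q * r)) +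
      q * ((p * (y 1 - v) - r * (y 0 - u)) / (p * s - q * r)) + u = y 0
    have e : p * ((s * (y 0 - u) - q * (y 1 - v)) / (p * s - q * r)) +
      q * ((p * (y 1 - v) - r * (y 0 - u)) / (p * s - q * r)) = y 0 - u := by
      rw [mul_div_assoc', mul_div_assoc', ← add_div, div_eq_iff hD]; ring
    rw [e]; ring
  · show r * ((s * (y 0 - u) - q * (y 1 - v)) / (p * s - q * r)) +
      s * ((p * (y 1 - v) - r * (y 0 - u)) / (p * s - q * r)) + v = y 1
    have e : r * ((s * (y 0 - u) - q * (y 1 - v)) / (p * s - q * r)) +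
      s * ((p * (y 1 - v) - r * (y 0 - u)) / (p * s - q * r)) = y 1 - v := by
      rw [mul_div_assoc', mul_div_assoc', ← add_div, div_eq_iff hD]; ring
    rw [e]; ring

lemma fm_inv' (p q r s u v : ℝ) (hD : p * s - q * r ≠ 0) (x : E2) :
    (P ((s * (fm p q r s u v x 0 - u) - q * (fm p q r s u v x 1 - v)) / (p * s - q * r)) ((p * (fm p q r s u v x 1 - v) - r * (fm p q r s u v x 0 - u)) / (p * s - q * r)) : E2) = x := by
  ext i; fin_cases i
  · show (s * ((p * x 0 + q * x 1 + u) - u) - q * ((r * x 0 + s * x 1 + v) - v)) /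
      (p * s - q * r) = x 0
    rw [div_eq_iff hD]; ring
  · show (p * ((r * x 0 + s * x 1 + v) - v) - r * ((p * x 0 + q * x 1 + u) - u)) /
      (p * s - q * r) = x 1
    rw [div_eq_iff hD]; ring

lemma compact_pre (p q r s u v : ℝ) (hD : p * s - q * r ≠ 0) {K : Set E2} (hK : IsCompact K) :
    IsCompact (fm p q r s u v ⁻¹' K) := by
  have h : fm p q r s u v ⁻¹' K = (fun y : E2 => (P ((s * (y 0 - u) - q * (y 1 - v)) / (p * s - q * r)) ((p * (y 1 - v) - r * (y 0 - u)) / (p * s - q * r)) : E2)) '' K := by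
    ext x
    constructor
    · intro hx
      exact ⟨_, hx, fm_inv' p q r s u v hD x⟩
    · rintro ⟨y, hy, rfl⟩
      rw [mem_preimage, fm_inv p q r s u v hD y]
      exact hy
  rw [h]
  apply hK.image
  unfold P
  fun_prop

lemma fm_inj (p q r s u v : ℝ) (hD : p * s - q * r ≠ 0) :
    Function.Injective (fm p q r s u v) := by
  intro x y hxy
  rw [← fm_inv' p q r s u v hD x, ← fm_inv' p q r s u v hD y, hxy]

lemma circ_pre (p q r s u v : ℝ) (hD : p * s - q * r ≠ 0) {K : Set E2} {A : ℝ}
    (h : Circ (fm p q r s u v ⁻¹' K) A) : Circ K (|p * s - q * r| * A) := by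
  obtain ⟨a, b, c, d, h1, h2⟩ := h
  set F := fmA p q r s u v with hF
  have himg : F '' convexHull ℝ ({a, b, c, d} : Set E2) = convexHull ℝ {F a, F b, F c, F d} := by
    rw [AffineMap.image_convexHull]
    congr 1
    simp [image_insert_eq]
  refine ⟨F a, F b, F c, F d, ?_, ?_⟩
  · intro y hy
    rw [← himg]
    refine ⟨_, h1 ?_, fm_inv p q r s u v hD y⟩
    rw [mem_preimage, fm_inv p q r s u v hD y]
    exact hy
  · have e1 : fm p q r s u v ⁻¹' convexHull ℝ {F a, F b, F c, F d} =
        convexHull ℝ ({a, b, c, d} : Set E2) := by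
      rw [← himg]
      exact preimage_image_eq _ (fm_inj p q r s u v hD)
    have e2 := vol_pre p q r s u v hD (convexHull ℝ {F a, F b, F c, F d})
    rw [e1] at e2
    have hpos : 0 < |p * s - q * r| := abs_pos.2 hD
    have e3 : volume (convexHull ℝ ({F a, F b, F c, F d} : Set E2)) =
        ENNReal.ofReal |p * s - q * r| * volume (convexHull ℝ ({a, b, c, d} : Set E2)) := by
      rw [e2, ← mul_assoc, ← ENNReal.ofReal_mul hpos.le, abs_inv, mul_inv_cancel₀ hpos.ne',
        ENNReal.ofReal_one, one_mul]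
    rw [e3, ENNReal.ofReal_mul hpos.le]
    gcongr

/-! ### Areas from below -/

lemma cont_coord (a b t : ℝ) : Continuous (fun x : E2 => a * x 0 + b * x 1 + t) := by fun_prop

lemma orient_cont (a b : E2) : Continuous (fun x => orient a b x) := by
  unfold orient
  fun_prop

/-- splitting along a line -/
lemma vol_split (S : Set E2) (a b : E2) (hab : a ≠ b) :
    volume (S ∩ {x | orient a b x ≤ 0}) + volume (S ∩ {x | 0 ≤ orient a b x}) ≤ volume S := by
  have hm : MeasurableSet {x : E2 | orient a b x ≤ 0} :=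
    (isClosed_le (orient_cont a b) continuous_const).measurableSet
  have h1 := measure_inter_add_sdiff (μ := (volume : Measure E2)) S hm
  rw [← h1]
  refine add_le_add le_rfl ?_
  have h2 : S ∩ {x | 0 ≤ orient a b x} ⊆ (S \ {x | orient a b x ≤ 0}) ∪ {x | orient a b x = 0} := by
    rintro x ⟨hx, hx2⟩
    simp only [mem_ofPred_eq] at hx2
    rcases hx2.eq_or_lt with h | h
    · right; exact h.symm
    · left; exact ⟨hx, by simp only [mem_ofPred_eq, not_le]; exact h⟩
  refine (measure_mono h2).trans ((measure_union_le (μ := (volume : Measure E2)) _ _).trans ?_)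
  rw [line_null a b hab, add_zero]

lemma tri_lb (S : Set E2) (a b c : E2) (h : 0 ≤ orient a b c)
    (hS : convexHull ℝ ({a, b, c} : Set E2) ⊆ S) :
    ENNReal.ofReal (orient a b c / 2) ≤ volume S := by
  rcases h.eq_or_lt with h | h
  · rw [← h]; simp
  · rw [← tri_vol_pos a b c h]
    exact measure_mono hS

/-- two triangles with a common side -/
lemma tri2 (S : Set E2) (o e c n : E2) (h1 : convexHull ℝ ({o, e, c} : Set E2) ⊆ S)
    (h2 : convexHull ℝ ({o, c, n} : Set E2) ⊆ S) (he : 0 ≤ orient o e c) (hn : 0 ≤ orient o c n) :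
    ENNReal.ofReal ((orient o e c + orient o c n) / 2) ≤ volume S := by
  by_cases hoc : o = c
  · subst hoc
    simp [or_self3, or_self1]
  · refine le_trans ?_ (vol_split S o c hoc)
    rw [add_div, ENNReal.ofReal_add (by linarith) (by linarith)]
    gcongr
    · apply tri_lb _ o e c he
      refine subset_inter h1 ?_
      apply convexHull_min _ (half_convex' o c)
      rintro p (rfl | rfl | rfl)
      · simp [or_self3]
      · simp only [mem_ofPred_eq]; rw [or_swap']; linarith
      · simp [or_self2]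
    · apply tri_lb _ o c n hn
      refine subset_inter h2 ?_
      apply convexHull_min _ (half_convex o c)
      rintro p (rfl | rfl | rfl)
      · simp [or_self3]
      · simp [or_self2]
      · exact hn

/-- the same for a convex set -/
lemma tri2c {S : Set E2} (hS : Convex ℝ S) {o e c n : E2} (ho : o ∈ S) (he' : e ∈ S) (hc : c ∈ S)
    (hn' : n ∈ S) (he : 0 ≤ orient o e c) (hn : 0 ≤ orient o c n) :
    ENNReal.ofReal ((orient o e c + orient o c n) / 2) ≤ volume S := by
  apply tri2 S o e c n _ _ he hn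
  · exact convexHull_min (by rintro p (rfl | rfl | rfl) <;> assumption) hS
  · exact convexHull_min (by rintro p (rfl | rfl | rfl) <;> assumption) hS

/-- three triangles -/
lemma tri3c {S : Set E2} (hS : Convex ℝ S) {o w0 w1 w2 w3 : E2} (ho : o ∈ S) (h0 : w0 ∈ S)
    (h1 : w1 ∈ S) (h2 : w2 ∈ S) (h3 : w3 ∈ S) (e0 : 0 ≤ orient o w0 w1) (e1 : 0 ≤ orient o w1 w2)
    (e2 : 0 ≤ orient o w2 w3) (e3 : 0 ≤ orient o w1 w3) (hne : o ≠ w1) :
    ENNReal.ofReal ((orient o w0 w1 + orient o w1 w2 + orient o w2 w3) / 2) ≤ volume S := by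
  refine le_trans ?_ (vol_split S o w1 hne)
  rw [show (orient o w0 w1 + orient o w1 w2 + orient o w2 w3) / 2 =
    orient o w0 w1 / 2 + (orient o w1 w2 + orient o w2 w3) / 2 by ring,
    ENNReal.ofReal_add (by linarith) (by linarith)]
  gcongr
  · apply tri_lb _ o w0 w1 e0
    refine subset_inter (convexHull_min (by rintro p (rfl | rfl | rfl) <;> assumption) hS) ?_
    apply convexHull_min _ (half_convex' o w1)
    rintro p (rfl | rfl | rfl)
    · simp [or_self3]
    · simp only [mem_ofPred_eq]; rw [or_swap']; linarith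
    · simp [or_self2]
  · apply tri2c (hS.inter (half_convex o w1)) ⟨ho, ?_⟩ ⟨h1, ?_⟩ ⟨h2, ?_⟩ ⟨h3, ?_⟩ e1 e2
    · simp [or_self3]
    · simp [or_self2]
    · exact e1
    · exact e3

end Pool.Agent.R758.CQ
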