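import Pool.Agent.R758.CQ.Basic

set_option autoImplicit false

open MeasureTheory Set
open scoped ENNReal

namespace Pool.Agent.R758.CQ

open Pool.Agent.Helper717.Hull1 (orient half_convex half_convex' tri_iff bary or_cyc or_swap' or_swap
  or_self1 or_self2 or_self3 line_null)
open Pool.Agent.Helper717.Hull2 (tri_vol tri_vol_pos)

/-- rotation by a right angle -/
noncomputable def rot (K : Set E2) : Set E2 := fm 0 1 (-1) 0 0 0 ⁻¹' K

lemma mem_rot {K : Set E2} {x : E2} : x ∈ rot K ↔ (P (x 1) (-x 0) : E2) ∈ K := by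
  unfold rot
  rw [mem_preimage]
  have : fm 0 1 (-1) 0 0 0 x = P (x 1) (-x 0) := by
    ext i; fin_cases i <;> simp [fm]
  rw [this]

lemma vol_rot (K : Set E2) : volume (rot K) = volume K := by
  unfold rot
  rw [vol_pre _ _ _ _ _ _ (by norm_num)]
  norm_num

lemma circ_rot {K : Set E2} {A : ℝ} (h : Circ (rot K) A) : Circ K A := by
  have := circ_pre 0 1 (-1) 0 0 0 (by norm_num) h
  simpa using this

/-- normalised bodies -/
structure Nm (K : Set E2) (α β : ℝ) : Prop where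
  cpt : IsCompact K
  cvx : Convex ℝ K
  box : ∀ x ∈ K, -1 ≤ x 0 ∧ x 0 ≤ 1 ∧ -1 ≤ x 1 ∧ x 1 ≤ 1
  top : (P (α) (1) : E2) ∈ K
  bot : (P (α) (-1) : E2) ∈ K
  lft : (P (-1) (β) : E2) ∈ K
  rgt : (P (1) (β) : E2) ∈ K

lemma Nm.rot {K : Set E2} {α β : ℝ} (h : Nm K α β) : Nm (rot K) (-β) α where
  cpt := compact_pre _ _ _ _ _ _ (by norm_num) h.cpt
  cvx := convex_pre _ _ _ _ _ _ h.cvx
  box := by
    intro x hx
    have := h.box _ (mem_rot.1 hx)
    simp only [mk0, mk1] at this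
    obtain ⟨h1, h2, h3, h4⟩ := this
    exact ⟨by linarith, by linarith, h1, h2⟩
  top := by rw [mem_rot]; simpa using h.rgt
  bot := by rw [mem_rot]; simpa using h.lft
  lft := by rw [mem_rot]; simpa using h.top
  rgt := by rw [mem_rot]; simpa using h.bot

lemma Nm.bd {K : Set E2} {α β : ℝ} (h : Nm K α β) : -1 ≤ α ∧ α ≤ 1 ∧ -1 ≤ β ∧ β ≤ 1 := by
  have h1 := h.box _ h.top
  have h2 := h.box _ h.lft
  simp only [mk0, mk1] at h1 h2
  exact ⟨h1.1, h1.2.1, h2.2.2.1, h2.2.2.2⟩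

lemma seg_mem {K : Set E2} (hK : Convex ℝ K) {x y : E2} (hx : x ∈ K) (hy : y ∈ K) {z : E2} (t : ℝ)
    (h0 : 0 ≤ t) (h1 : t ≤ 1) (e0 : z 0 = (1 - t) * x 0 + t * y 0)
    (e1 : z 1 = (1 - t) * x 1 + t * y 1) : z ∈ K := by
  have := hK hx hy (by linarith : 0 ≤ 1 - t) h0 (by ring)
  convert this using 1
  ext i; fin_cases i
  · simpa using e0
  · simpa using e1

lemma Nm.ctr {K : Set E2} {α β : ℝ} (h : Nm K α β) : (P (α) (β) : E2) ∈ K := by
  obtain ⟨_, _, h3, h4⟩ := h.bd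
  refine seg_mem h.cvx h.bot h.top ((1 + β) / 2) (by linarith) (by linarith) ?_ ?_
  · simp; ring
  · simp; ring

lemma cvx_0ge (t : ℝ) : Convex ℝ {x : E2 | t ≤ x 0} := by
  intro p hp q hq a b ha hb hab
  simp only [mem_ofPred_eq, PiLp.add_apply, PiLp.smul_apply, smul_eq_mul] at *
  have h1 := mul_le_mul_of_nonneg_left hp ha
  have h2 := mul_le_mul_of_nonneg_left hq hb
  have h3 : a * t + b * t = t := by rw [← add_mul, hab, one_mul]
  linarith
lemma cvx_0le (t : ℝ) : Convex ℝ {x : E2 | x 0 ≤ t} := by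
  intro p hp q hq a b ha hb hab
  simp only [mem_ofPred_eq, PiLp.add_apply, PiLp.smul_apply, smul_eq_mul] at *
  have h1 := mul_le_mul_of_nonneg_left hp ha
  have h2 := mul_le_mul_of_nonneg_left hq hb
  have h3 : a * t + b * t = t := by rw [← add_mul, hab, one_mul]
  linarith
lemma cvx_1ge (t : ℝ) : Convex ℝ {x : E2 | t ≤ x 1} := by
  intro p hp q hq a b ha hb hab
  simp only [mem_ofPred_eq, PiLp.add_apply, PiLp.smul_apply, smul_eq_mul] at *
  have h1 := mul_le_mul_of_nonneg_left hp ha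
  have h2 := mul_le_mul_of_nonneg_left hq hb
  have h3 : a * t + b * t = t := by rw [← add_mul, hab, one_mul]
  linarith
lemma cvx_1le (t : ℝ) : Convex ℝ {x : E2 | x 1 ≤ t} := by
  intro p hp q hq a b ha hb hab
  simp only [mem_ofPred_eq, PiLp.add_apply, PiLp.smul_apply, smul_eq_mul] at *
  have h1 := mul_le_mul_of_nonneg_left hp ha
  have h2 := mul_le_mul_of_nonneg_left hq hb
  have h3 : a * t + b * t = t := by rw [← add_mul, hab, one_mul]
  linarith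

lemma split_v (S : Set E2) (t : ℝ) :
    volume (S ∩ {x | t ≤ x 0}) + volume (S ∩ {x | x 0 ≤ t}) ≤ volume S := by
  have h := vol_split S (P (t) (0)) (P (t) (1)) (by
    intro h
    have := congrArg (fun x : E2 => x 1) h
    simp at this)
  have e : ∀ x : E2, orient (P (t) (0)) (P (t) (1)) x = t - x 0 := by
    intro x; simp [orient]
  simp only [e] at h
  convert h using 4
  · ext x; simp
  · ext x; simp

lemma split_h (S : Set E2) (t : ℝ) :
    volume (S ∩ {x | t ≤ x 1}) + volume (S ∩ {x | x 1 ≤ t}) ≤ volume S := by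
  have h := vol_split S (P (0) (t)) (P (1) (t)) (by
    intro h
    have := congrArg (fun x : E2 => x 0) h
    simp at this)
  have e : ∀ x : E2, orient (P (0) (t)) (P (1) (t)) x = x 1 - t := by
    intro x; simp [orient]
  simp only [e] at h
  rw [add_comm] at h
  convert h using 4
  · ext x; simp
  · ext x; simp

lemma split4 (K : Set E2) (α β : ℝ) :
    volume (K ∩ {x | α ≤ x 0 ∧ β ≤ x 1}) + volume (K ∩ {x | α ≤ x 0 ∧ x 1 ≤ β}) +
      volume (K ∩ {x | x 0 ≤ α ∧ x 1 ≤ β}) + volume (K ∩ {x | x 0 ≤ α ∧ β ≤ x 1}) ≤ volume K := by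
  have h1 := split_v K α
  have h2 := split_h (K ∩ {x | α ≤ x 0}) β
  have h3 := split_h (K ∩ {x | x 0 ≤ α}) β
  have e1 : K ∩ {x : E2 | α ≤ x 0} ∩ {x | β ≤ x 1} = K ∩ {x | α ≤ x 0 ∧ β ≤ x 1} := by
    ext x; simp [and_assoc]
  have e2 : K ∩ {x : E2 | α ≤ x 0} ∩ {x | x 1 ≤ β} = K ∩ {x | α ≤ x 0 ∧ x 1 ≤ β} := by
    ext x; simp [and_assoc]
  have e3 : K ∩ {x : E2 | x 0 ≤ α} ∩ {x | β ≤ x 1} = K ∩ {x | x 0 ≤ α ∧ β ≤ x 1} := by
    ext x; simp [and_assoc]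
  have e4 : K ∩ {x : E2 | x 0 ≤ α} ∩ {x | x 1 ≤ β} = K ∩ {x | x 0 ≤ α ∧ x 1 ≤ β} := by
    ext x; simp [and_assoc]
  rw [e1, e2] at h2
  rw [e3, e4] at h3
  calc _ = (volume (K ∩ {x | α ≤ x 0 ∧ β ≤ x 1}) + volume (K ∩ {x | α ≤ x 0 ∧ x 1 ≤ β})) +
      (volume (K ∩ {x | x 0 ≤ α ∧ β ≤ x 1}) + volume (K ∩ {x | x 0 ≤ α ∧ x 1 ≤ β})) := by ring
    _ ≤ volume (K ∩ {x | α ≤ x 0}) + volume (K ∩ {x | x 0 ≤ α}) := add_le_add h2 h3
    _ ≤ volume K := h1

/-- the north east quarter -/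
lemma quarter {K : Set E2} {α β : ℝ} (h : Nm K α β) : ∃ H : ℝ,
    (∀ x ∈ K, (1 - β) * x 0 + (1 - α) * x 1 ≤ H) ∧
    (∃ c ∈ K, (1 - β) * c 0 + (1 - α) * c 1 = H) ∧ 1 - α * β ≤ H ∧
    ENNReal.ofReal ((H - α - β + 2 * α * β) / 2) ≤ volume (K ∩ {x | α ≤ x 0 ∧ β ≤ x 1}) := by
  obtain ⟨hα1, hα2, hβ1, hβ2⟩ := h.bd
  have hcont : Continuous (fun x : E2 => (1 - β) * x 0 + (1 - α) * x 1) := by fun_prop
  obtain ⟨c, hc, hmax⟩ := h.cpt.exists_isMaxOn ⟨_, h.top⟩ hcont.continuousOn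
  have hmax' : ∀ x ∈ K, (1 - β) * x 0 + (1 - α) * x 1 ≤ (1 - β) * c 0 + (1 - α) * c 1 :=
    fun x hx => hmax hx
  have hge : 1 - α * β ≤ (1 - β) * c 0 + (1 - α) * c 1 := by
    have := hmax' _ h.top
    simp only [mk0, mk1] at this
    linarith
  refine ⟨_, hmax', ⟨c, hc, rfl⟩, hge, ?_⟩
  have hS : Convex ℝ (K ∩ {x : E2 | α ≤ x 0 ∧ β ≤ x 1}) := by
    have := h.cvx.inter ((cvx_0ge α).inter (cvx_1ge β))
    convert this using 1
    ext x; simp only [mem_inter_iff, mem_ofPred_eq]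
  have ho : (P (α) (β) : E2) ∈ K ∩ {x : E2 | α ≤ x 0 ∧ β ≤ x 1} := ⟨h.ctr, by simp⟩
  have he : (P (1) (β) : E2) ∈ K ∩ {x : E2 | α ≤ x 0 ∧ β ≤ x 1} := ⟨h.rgt, by simpa using hα2⟩
  have hn : (P (α) (1) : E2) ∈ K ∩ {x : E2 | α ≤ x 0 ∧ β ≤ x 1} := ⟨h.top, by simpa using hβ2⟩
  have key : ∀ c : E2, c ∈ K → α ≤ c 0 → β ≤ c 1 →
      ENNReal.ofReal (((1 - β) * c 0 + (1 - α) * c 1 - α - β + 2 * α * β) / 2) ≤
        volume (K ∩ {x | α ≤ x 0 ∧ β ≤ x 1}) := by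
    intro c hc h0 h1
    have e1 : orient (P (α) (β)) (P (1) (β)) c = (1 - α) * (c 1 - β) := by simp [orient]
    have e2 : orient (P (α) (β)) c (P (α) (1)) = (c 0 - α) * (1 - β) := by simp [orient]
    have := tri2c hS ho he ⟨hc, h0, h1⟩ hn (by
      rw [e1]; exact mul_nonneg (by linarith) (by linarith)) (by
      rw [e2]; exact mul_nonneg (by linarith) (by linarith))
    rw [e1, e2] at this
    convert this using 3
    ring
  rcases hge.eq_or_lt with hH | hH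
  · have := key _ h.rgt (by simpa using hα2) (by simp)
    simp only [mk0, mk1] at this
    rw [← hH]
    convert this using 3
    ring
  · have hb := h.box c hc
    apply key c hc
    · by_contra hlt
      push Not at hlt
      have : (1 - β) * (c 0 - α) ≤ 0 := mul_nonpos_of_nonneg_of_nonpos (by linarith) (by linarith)
      have : (1 - α) * (c 1 - 1) ≤ 0 := mul_nonpos_of_nonneg_of_nonpos (by linarith) (by linarith)
      nlinarith
    · by_contra hlt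
      push Not at hlt
      have : (1 - α) * (c 1 - β) ≤ 0 := mul_nonpos_of_nonneg_of_nonpos (by linarith) (by linarith)
      have : (1 - β) * (c 0 - 1) ≤ 0 := mul_nonpos_of_nonneg_of_nonpos (by linarith) (by linarith)
      nlinarith

/-- The four support numbers with respect to the directions of the sides of the inscribed
quadrilateral. -/
structure Sup (K : Set E2) (α β H1 H2 H3 H4 : ℝ) : Prop where
  b1 : ∀ x ∈ K, (1 - β) * x 0 + (1 - α) * x 1 ≤ H1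
  b2 : ∀ x ∈ K, (1 + β) * x 0 - (1 - α) * x 1 ≤ H2
  b3 : ∀ x ∈ K, -(1 + β) * x 0 - (1 + α) * x 1 ≤ H3
  b4 : ∀ x ∈ K, -(1 - β) * x 0 + (1 + α) * x 1 ≤ H4
  c1 : ∃ x ∈ K, (1 - β) * x 0 + (1 - α) * x 1 = H1
  c2 : ∃ x ∈ K, (1 + β) * x 0 - (1 - α) * x 1 = H2
  c3 : ∃ x ∈ K, -(1 + β) * x 0 - (1 + α) * x 1 = H3
  c4 : ∃ x ∈ K, -(1 - β) * x 0 + (1 + α) * x 1 = H4
  l1 : 1 - α * β ≤ H1
  l2 : 1 + α * β ≤ H2
  l3 : 1 - α * β ≤ H3
  l4 : 1 + α * β ≤ H4

lemma sup_exists {K : Set E2} {α β : ℝ} (h : Nm K α β) : ∃ H1 H2 H3 H4 : ℝ,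
    Sup K α β H1 H2 H3 H4 ∧ ENNReal.ofReal ((H1 + H2 + H3 + H4) / 2) ≤ volume K := by
  have h2 := h.rot
  have h3 := h2.rot
  have h4 := h3.rot
  obtain ⟨H1, b1, c1, l1, v1⟩ := quarter h
  obtain ⟨H2, b2, c2, l2, v2⟩ := quarter h2
  obtain ⟨H3, b3, c3, l3, v3⟩ := quarter h3
  obtain ⟨H4, b4, c4, l4, v4⟩ := quarter h4
  have m2 : ∀ x ∈ K, (P (-x 1) (x 0) : E2) ∈ rot K := by
    intro x hx
    rw [mem_rot]
    simpa [eta2] using hx
  have m3 : ∀ x ∈ K, (P (-x 0) (-x 1) : E2) ∈ rot (rot K) := by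
    intro x hx
    rw [mem_rot, mem_rot]
    simpa [eta2] using hx
  have m4 : ∀ x ∈ K, (P (x 1) (-x 0) : E2) ∈ rot (rot (rot K)) := by
    intro x hx
    rw [mem_rot, mem_rot, mem_rot]
    simpa [eta2] using hx
  have e2 : volume (rot K ∩ {x | -β ≤ x 0 ∧ α ≤ x 1}) = volume (K ∩ {x | α ≤ x 0 ∧ x 1 ≤ β}) := by
    rw [← vol_rot (K ∩ {x | α ≤ x 0 ∧ x 1 ≤ β})]
    congr 1
    ext x
    simp only [mem_rot, mem_inter_iff, mem_ofPred_eq, mk0, mk1]
    constructor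
    · rintro ⟨a1, a2, a3⟩; exact ⟨a1, a3, by linarith⟩
    · rintro ⟨a1, a2, a3⟩; exact ⟨a1, by linarith, a2⟩
  have e3 : volume (rot (rot K) ∩ {x | -α ≤ x 0 ∧ -β ≤ x 1}) =
      volume (K ∩ {x | x 0 ≤ α ∧ x 1 ≤ β}) := by
    rw [← vol_rot (K ∩ {x | x 0 ≤ α ∧ x 1 ≤ β}), ← vol_rot (rot (K ∩ {x | x 0 ≤ α ∧ x 1 ≤ β}))]
    congr 1
    ext x
    simp only [mem_rot, mem_inter_iff, mem_ofPred_eq, mk0, mk1]
    constructor
    · rintro ⟨a1, a2, a3⟩; exact ⟨a1, by linarith, by linarith⟩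
    · rintro ⟨a1, a2, a3⟩; exact ⟨a1, by linarith, by linarith⟩
  have e4 : volume (rot (rot (rot K)) ∩ {x | - -β ≤ x 0 ∧ -α ≤ x 1}) =
      volume (K ∩ {x | x 0 ≤ α ∧ β ≤ x 1}) := by
    rw [← vol_rot (K ∩ {x | x 0 ≤ α ∧ β ≤ x 1}), ← vol_rot (rot (K ∩ {x | x 0 ≤ α ∧ β ≤ x 1})),
      ← vol_rot (rot (rot (K ∩ {x | x 0 ≤ α ∧ β ≤ x 1})))]
    congr 1
    ext x
    simp only [mem_rot, mem_inter_iff, mem_ofPred_eq, mk0, mk1]
    constructor
    · rintro ⟨a1, a2, a3⟩; exact ⟨a1, by linarith, by linarith⟩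
    · rintro ⟨a1, a2, a3⟩; exact ⟨a1, by linarith, by linarith⟩
  refine ⟨H1, H2, H3, H4, ?_, ?_⟩
  · constructor
    · exact b1
    · intro x hx; have := b2 _ (m2 x hx); simp only [mk0, mk1] at this; linarith
    · intro x hx; have := b3 _ (m3 x hx); simp only [mk0, mk1] at this; linarith
    · intro x hx; have := b4 _ (m4 x hx); simp only [mk0, mk1] at this; linarith
    · exact c1
    · obtain ⟨y, hy, e⟩ := c2
      rw [mem_rot] at hy
      exact ⟨_, hy, by simp only [mk0, mk1]; linarith⟩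
    · obtain ⟨y, hy, e⟩ := c3
      rw [mem_rot, mem_rot] at hy
      exact ⟨_, hy, by simp only [mk0, mk1]; linarith⟩
    · obtain ⟨y, hy, e⟩ := c4
      rw [mem_rot, mem_rot, mem_rot] at hy
      exact ⟨_, hy, by simp only [mk0, mk1]; linarith⟩
    · exact l1
    · linarith
    · linarith
    · linarith
  · refine le_trans ?_ (split4 K α β)
    rw [e2] at v2
    rw [e3] at v3
    rw [e4] at v4
    refine le_trans ?_ (add_le_add (add_le_add (add_le_add v1 v2) v3) v4)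
    obtain ⟨hα1, hα2, hβ1, hβ2⟩ := h.bd
    have p1 : 0 ≤ (H1 - α - β + 2 * α * β) / 2 := by nlinarith
    have p2 : 0 ≤ (H2 - -β - α + 2 * -β * α) / 2 := by nlinarith
    have p3 : 0 ≤ (H3 - -α - -β + 2 * -α * -β) / 2 := by nlinarith
    have p4 : 0 ≤ (H4 - - -β - -α + 2 * - -β * -α) / 2 := by nlinarith
    rw [← ENNReal.ofReal_add p1 p2, ← ENNReal.ofReal_add (by linarith) p3,
      ← ENNReal.ofReal_add (by linarith) p4]
    apply ENNReal.ofReal_le_ofReal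
    linarith

/-- the circumscribed quadrilateral with the directions of the sides of the inscribed one -/
lemma pprime {K : Set E2} {a b H1 H2 H3 H4 : ℝ} (ha : 0 < a) (ha2 : a < 2) (hb : 0 < b) (hb2 : b < 2)
    (b1 : ∀ x ∈ K, b * x 0 + a * x 1 ≤ H1) (b2 : ∀ x ∈ K, (2 - b) * x 0 - a * x 1 ≤ H2)
    (b3 : ∀ x ∈ K, -(2 - b) * x 0 - (2 - a) * x 1 ≤ H3) (b4 : ∀ x ∈ K, -b * x 0 + (2 - a) * x 1 ≤ H4)
    (l1 : 0 < H2 * b + H4 * a - H1 * (2 - a - b)) (l2 : 0 < H3 * a + H1 * (2 - b) + H2 * (a - b))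
    (l3 : 0 < H4 * (2 - b) + H2 * (2 - a) + H3 * (2 - a - b))
    (l4 : 0 < H1 * (2 - a) + H3 * b + H4 * (b - a)) :
    Circ K ((H1 + H2 + H3 + H4) ^ 2 / 8) := by
  have ha' : 0 < 2 - a := by linarith
  have hb' : 0 < 2 - b := by linarith
  have na := ha.ne'
  have nb := hb.ne'
  have na' := ha'.ne'
  have nb' := hb'.ne'
  set B : E2 := P ((H1 + H2) / 2) ((H1 * (2 - b) - H2 * b) / (2 * a)) with hB
  set A : E2 := P ((H1 * (2 - a) - H4 * a) / (2 * b)) ((H1 + H4) / 2) with hA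
  set D : E2 := P (-(H3 + H4) / 2) ((H4 * (2 - b) - H3 * b) / (2 * (2 - a))) with hD
  set C : E2 := P ((H2 * (2 - a) - H3 * a) / (2 * (2 - b))) (-(H2 + H3) / 2) with hC
  set L1 := (H2 * b + H4 * a - H1 * (2 - a - b)) / (2 * a * b) with hL1
  set L2 := (H3 * a + H1 * (2 - b) + H2 * (a - b)) / (2 * a * (2 - b)) with hL2
  set L3 := (H4 * (2 - b) + H2 * (2 - a) + H3 * (2 - a - b)) / (2 * (2 - a) * (2 - b)) with hL3
  set L4 := (H1 * (2 - a) + H3 * b + H4 * (b - a)) / (2 * (2 - a) * b) with hL4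
  have pL1 : 0 < L1 := by positivity
  have pL2 : 0 < L2 := by positivity
  have pL3 : 0 < L3 := by positivity
  have pL4 : 0 < L4 := by positivity
  have f1 : ∀ x : E2, orient B A x = L1 * (H1 - (b * x 0 + a * x 1)) := by
    intro x
    simp only [orient, hA, hB, hL1, mk0, mk1]
    field_simp; ring
  have f4 : ∀ x : E2, orient A D x = L4 * (H4 - (-b * x 0 + (2 - a) * x 1)) := by
    intro x
    simp only [orient, hA, hD, hL4, mk0, mk1]
    field_simp; ring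
  have f3 : ∀ x : E2, orient D C x = L3 * (H3 - (-(2 - b) * x 0 - (2 - a) * x 1)) := by
    intro x
    simp only [orient, hD, hC, hL3, mk0, mk1]
    field_simp; ring
  have f2 : ∀ x : E2, orient C B x = L2 * (H2 - ((2 - b) * x 0 - a * x 1)) := by
    intro x
    simp only [orient, hB, hC, hL2, mk0, mk1]
    field_simp; ring
  have g1 : orient B A D = 2 * b * L1 * L4 := by
    rw [f1]
    simp only [hD, hL4, mk0, mk1]
    field_simp; ring
  have g2 : orient B D C = 2 * (2 - b) * L2 * L3 := by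
    rw [← or_cyc, f3]
    simp only [hB, hL2, mk0, mk1]
    field_simp; ring
  have g3 : orient B A C = 2 * a * L1 * L2 := by
    rw [f1]
    simp only [hC, hL2, mk0, mk1]
    field_simp; ring
  have g4 : orient A D C = 2 * (2 - a) * L3 * L4 := by
    rw [f4]
    simp only [hC, hL3, mk0, mk1]
    field_simp; ring
  apply circ_of_quad B A D C
  · rw [g1]; positivity
  · rw [g2]; positivity
  · rw [g3]; positivity
  · rw [g4]; positivity
  · intro x hx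
    rw [f1, f4, f3, f2]
    refine ⟨mul_nonneg pL1.le ?_, mul_nonneg pL4.le ?_, mul_nonneg pL3.le ?_, mul_nonneg pL2.le ?_⟩
    · linarith [b1 x hx]
    · linarith [b4 x hx]
    · linarith [b3 x hx]
    · linarith [b2 x hx]
  · rw [g1, g2]
    have : 2 * ((H1 + H2 + H3 + H4) ^ 2 / 8) - (2 * b * L1 * L4 + 2 * (2 - b) * L2 * L3) =
        ((2 - a) * (2 - b) * H1 - (2 - a) * b * H2 + a * b * H3 - a * (2 - b) * H4) ^ 2 /
          (4 * a * (2 - a) * b * (2 - b)) := by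
      simp only [hL1, hL2, hL3, hL4]
      field_simp; ring
    have h2 : 0 ≤ ((2 - a) * (2 - b) * H1 - (2 - a) * b * H2 + a * b * H3 - a * (2 - b) * H4) ^ 2 /
          (4 * a * (2 - a) * b * (2 - b)) := by positivity
    linarith

end Pool.Agent.R758.CQ
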