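import Pool.Agent.R758.CQ.Stage1

set_option autoImplicit false

open MeasureTheory Set
open scoped ENNReal

namespace Pool.Agent.R758.CQ

open Pool.Agent.Helper717.Hull1 (orient half_convex half_convex' tri_iff bary or_cyc or_swap' or_swap
  or_self1 or_self2 or_self3 line_null)

lemma circ_box {K : Set E2} {α β : ℝ} (h : Nm K α β) : Circ K 4 := by
  apply circ_of_quad (P 1 (-1)) (P 1 1) (P (-1) 1) (P (-1) (-1))
  · simp [orient]; norm_num
  · simp [orient]; norm_num
  · simp [orient]; norm_num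
  · simp [orient]; norm_num
  · intro x hx
    obtain ⟨h1, h2, h3, h4⟩ := h.box x hx
    simp only [orient, mk0, mk1]
    refine ⟨?_, ?_, ?_, ?_⟩ <;> linarith
  · simp [orient]; norm_num

lemma sup_le {K : Set E2} {k S : ℝ} (hk : volume K = ENNReal.ofReal k) (hk0 : 0 ≤ k)
    (h : ENNReal.ofReal S ≤ volume K) : S ≤ k := by
  rw [hk] at h
  exact (ENNReal.ofReal_le_ofReal_iff hk0).1 h

lemma circ_pprime {K : Set E2} {α β k κ : ℝ} (h : Nm K α β) (ha1 : -1 < α) (ha2 : α < 1)
    (hb1 : -1 < β) (hb2 : β < 1) (hk : volume K = ENNReal.ofReal k) (hk0 : 0 ≤ k) (hκ : 0 < κ) :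
    Circ K ((k + 2 * κ) ^ 2 / 2) := by
  obtain ⟨H1, H2, H3, H4, S, hV⟩ := sup_exists h
  have hV := sup_le hk hk0 hV
  have pab : 0 < (1 - α) * (1 - β) := mul_pos (by linarith) (by linarith)
  have pab2 : 0 < (1 + α) * (1 - β) := mul_pos (by linarith) (by linarith)
  have pab3 : 0 < (1 + α) * (1 + β) := mul_pos (by linarith) (by linarith)
  have pab4 : 0 < (1 - α) * (1 + β) := mul_pos (by linarith) (by linarith)
  have t1 : 0 ≤ κ * (1 - α * β) := mul_nonneg hκ.le (by nlinarith)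
  have t2 : 0 ≤ κ * (1 + α * β) := mul_nonneg hκ.le (by nlinarith)
  have main : Circ K ((H1 + κ * (1 - α * β) + (H2 + κ * (1 + α * β)) + (H3 + κ * (1 - α * β)) +
      (H4 + κ * (1 + α * β))) ^ 2 / 8) := by
    apply pprime (a := 1 - α) (b := 1 - β) (by linarith) (by linarith) (by linarith) (by linarith)
    · intro x hx; linarith [S.b1 x hx]
    · intro x hx; linarith [S.b2 x hx]
    · intro x hx; linarith [S.b3 x hx]
    · intro x hx; linarith [S.b4 x hx]
    · obtain ⟨x, hx, e⟩ := S.c1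
      have n : (H2 + κ * (1 + α * β)) * (1 - β) + (H4 + κ * (1 + α * β)) * (1 - α) -
          (H1 + κ * (1 - α * β)) * (2 - (1 - α) - (1 - β)) =
          (1 - β) * (H2 - ((1 + β) * x 0 - (1 - α) * x 1)) +
          (1 - α) * (H4 - (-(1 - β) * x 0 + (1 + α) * x 1)) + κ * (2 * ((1 - α) * (1 - β))) := by
        rw [← e]; ring
      rw [n]
      have := mul_nonneg (by linarith : 0 ≤ 1 - β) (sub_nonneg.2 (S.b2 x hx))
      have := mul_nonneg (by linarith : 0 ≤ 1 - α) (sub_nonneg.2 (S.b4 x hx))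
      have : 0 < κ * (2 * ((1 - α) * (1 - β))) := by positivity
      linarith
    · obtain ⟨x, hx, e⟩ := S.c2
      have n : (H3 + κ * (1 - α * β)) * (1 - α) + (H1 + κ * (1 - α * β)) * (2 - (1 - β)) +
          (H2 + κ * (1 + α * β)) * (1 - α - (1 - β)) =
          (1 - α) * (H3 - (-(1 + β) * x 0 - (1 + α) * x 1)) +
          (1 + β) * (H1 - ((1 - β) * x 0 + (1 - α) * x 1)) + κ * (2 * ((1 - α) * (1 + β))) := by
        rw [← e]; ring
      rw [n]
      have := mul_nonneg (by linarith : 0 ≤ 1 - α) (sub_nonneg.2 (S.b3 x hx))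
      have := mul_nonneg (by linarith : 0 ≤ 1 + β) (sub_nonneg.2 (S.b1 x hx))
      have : 0 < κ * (2 * ((1 - α) * (1 + β))) := by positivity
      linarith
    · obtain ⟨x, hx, e⟩ := S.c3
      have n : (H4 + κ * (1 + α * β)) * (2 - (1 - β)) + (H2 + κ * (1 + α * β)) * (2 - (1 - α)) +
          (H3 + κ * (1 - α * β)) * (2 - (1 - α) - (1 - β)) =
          (1 + β) * (H4 - (-(1 - β) * x 0 + (1 + α) * x 1)) +
          (1 + α) * (H2 - ((1 + β) * x 0 - (1 - α) * x 1)) + κ * (2 * ((1 + α) * (1 + β))) := by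
        rw [← e]; ring
      rw [n]
      have := mul_nonneg (by linarith : 0 ≤ 1 + β) (sub_nonneg.2 (S.b4 x hx))
      have := mul_nonneg (by linarith : 0 ≤ 1 + α) (sub_nonneg.2 (S.b2 x hx))
      have : 0 < κ * (2 * ((1 + α) * (1 + β))) := by positivity
      linarith
    · obtain ⟨x, hx, e⟩ := S.c4
      have n : (H1 + κ * (1 - α * β)) * (2 - (1 - α)) + (H3 + κ * (1 - α * β)) * (1 - β) +
          (H4 + κ * (1 + α * β)) * (1 - β - (1 - α)) =
          (1 + α) * (H1 - ((1 - β) * x 0 + (1 - α) * x 1)) +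
          (1 - β) * (H3 - (-(1 + β) * x 0 - (1 + α) * x 1)) + κ * (2 * ((1 + α) * (1 - β))) := by
        rw [← e]; ring
      rw [n]
      have := mul_nonneg (by linarith : 0 ≤ 1 + α) (sub_nonneg.2 (S.b1 x hx))
      have := mul_nonneg (by linarith : 0 ≤ 1 - β) (sub_nonneg.2 (S.b3 x hx))
      have : 0 < κ * (2 * ((1 + α) * (1 - β))) := by positivity
      linarith
  apply main.mono
  have e : H1 + κ * (1 - α * β) + (H2 + κ * (1 + α * β)) + (H3 + κ * (1 - α * β)) +
      (H4 + κ * (1 + α * β)) = (H1 + H2 + H3 + H4) + 4 * κ := by ring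
  rw [e]
  have h4 : 4 ≤ H1 + H2 + H3 + H4 := by linarith [S.l1, S.l2, S.l3, S.l4]
  have h5 : (H1 + H2 + H3 + H4 + 4 * κ) ≤ 2 * (k + 2 * κ) := by linarith
  have h6 : (H1 + H2 + H3 + H4 + 4 * κ) ^ 2 ≤ (2 * (k + 2 * κ)) ^ 2 :=
    pow_le_pow_left₀ (by linarith) h5 2
  nlinarith

/-- the degenerate case -/
lemma circ_deg {K : Set E2} {β k κ : ℝ} (h : Nm K 1 β) (hk : volume K = ENNReal.ofReal k)
    (hk0 : 0 ≤ k) (hκ : 0 < κ) : Circ K (2 * k - 2 + κ) := by
  obtain ⟨H1, H2, H3, H4, S, hV⟩ := sup_exists h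
  have hV := sup_le hk hk0 hV
  obtain ⟨_, _, hb1, hb2⟩ := h.bd
  have l1 := S.l1
  have l2 := S.l2
  have l3 := S.l3
  have l4 := S.l4
  have main : Circ K (H3 + κ + H4) := by
    apply circ_of_quad (P 1 (-(H3 + κ + 1 + β) / 2)) (P 1 ((H4 + 1 - β) / 2))
      (P (-1) ((H4 - (1 - β)) / 2)) (P (-1) ((1 + β - (H3 + κ)) / 2))
    · simp only [orient, mk0, mk1]; nlinarith
    · simp only [orient, mk0, mk1]; nlinarith
    · simp only [orient, mk0, mk1]; nlinarith
    · simp only [orient, mk0, mk1]; nlinarith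
    · intro x hx
      obtain ⟨h1, h2, h3, h4⟩ := h.box x hx
      have b3 := S.b3 x hx
      have b4 := S.b4 x hx
      simp only [orient, mk0, mk1]
      refine ⟨?_, ?_, ?_, ?_⟩
      · nlinarith
      · nlinarith
      · nlinarith
      · nlinarith
    · simp only [orient, mk0, mk1]; nlinarith
  apply main.mono
  linarith

/-- the constant -/
noncomputable def c0 : ℝ := 1.414213

theorem stage1 {K : Set E2} {α β k : ℝ} (h : Nm K α β) (hk : volume K = ENNReal.ofReal k)
    (hk0 : 0 ≤ k) (hn : ¬ Circ K (c0 * k)) : 2 * c0 ≤ k ∧ c0 * k < 4 := by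
  have hlt : c0 * k < 4 := by
    by_contra hc
    push Not at hc
    exact hn ((circ_box h).mono hc)
  refine ⟨?_, hlt⟩
  by_contra hc
  push Not at hc
  have hk2 : 2 ≤ k := by
    obtain ⟨H1, H2, H3, H4, S, hV⟩ := sup_exists h
    have hV := sup_le hk hk0 hV
    linarith [S.l1, S.l2, S.l3, S.l4]
  have hc0 : c0 = 1.414213 := rfl
  obtain ⟨ha1, ha2, hb1, hb2⟩ := h.bd
  have fin : ∀ K' : Set E2, ∀ β', Nm K' 1 β' → volume K' = ENNReal.ofReal k → Circ K' (c0 * k) := by
    intro K' β' h' hk'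
    apply (circ_deg (κ := 0.1) h' hk' hk0 (by norm_num)).mono
    rw [hc0] at *
    nlinarith
  rcases ha1.eq_or_lt with e1 | e1
  · apply hn
    apply circ_rot
    apply circ_rot
    have h2 := h.rot.rot
    rw [show -α = 1 by linarith] at h2
    exact fin _ _ h2 (by rw [vol_rot, vol_rot, hk])
  rcases ha2.eq_or_lt with e2 | e2
  · apply hn
    rw [e2] at h
    exact fin _ _ h hk
  rcases hb1.eq_or_lt with e3 | e3
  · apply hn
    apply circ_rot
    have h2 := h.rot
    rw [show -β = 1 by linarith] at h2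
    exact fin _ _ h2 (by rw [vol_rot, hk])
  rcases hb2.eq_or_lt with e4 | e4
  · apply hn
    apply circ_rot
    apply circ_rot
    apply circ_rot
    have h2 := h.rot.rot.rot
    rw [show - -β = 1 by linarith] at h2
    exact fin _ _ h2 (by rw [vol_rot, vol_rot, vol_rot, hk])
  apply hn
  apply (circ_pprime (κ := (2 * c0 - k) / 8) h e1 e2 e3 e4 hk hk0 (by linarith)).mono
  have hδ : 0 < 2 * c0 - k := by linarith
  have hδ2 : 0 ≤ 8 * k - (2 * c0 - k) := by rw [hc0]; linarith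
  have := mul_nonneg hδ.le hδ2
  nlinarith

end Pool.Agent.R758.CQ
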