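import Pool.Agent.R758.CQ.Stage1b

set_option autoImplicit false

open MeasureTheory Set
open scoped ENNReal

namespace Pool.Agent.R758.CQ

open Pool.Agent.Helper717.Hull1 (orient half_convex half_convex' tri_iff bary or_cyc or_swap' or_swap
  or_self1 or_self2 or_self3 line_null)

/-- middle chords -/
lemma mc {L : Set E2} (hc : IsCompact L) (hv : Convex ℝ L) {l0 l1 y0 t t' yp yq : ℝ} (hl : l0 < l1)
    (hb : ∀ x ∈ L, l0 ≤ x 0 ∧ x 0 ≤ l1 ∧ y0 ≤ x 1) (hp : P l0 yp ∈ L) (hq : P l1 yq ∈ L)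
    (hm : P ((l0 + l1) / 2) t' ∈ L) (ht : t' ≤ t) (hn : P ((l0 + l1) / 2) t ∉ L) :
    Circ L ((l1 - l0) * (t - y0)) := by
  obtain ⟨f, u, h1, h2⟩ := geometric_hahn_banach_closed_point hv hc.isClosed hn
  set f0 := f (P 1 0) with hf0
  set f1 := f (P 0 1) with hf1
  have hf : ∀ x : E2, f x = f0 * x 0 + f1 * x 1 := by
    intro x
    have : x = x 0 • P 1 0 + x 1 • P 0 1 := by
      apply ext2 <;> simp
    conv_lhs => rw [this]
    rw [map_add, map_smul, map_smul, smul_eq_mul, smul_eq_mul]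
    ring
  rw [hf] at h2
  simp only [mk0, mk1] at h2
  have e1 := h1 _ hm
  rw [hf] at e1
  simp only [mk0, mk1] at e1
  have hpos : 0 < f1 := by
    by_contra hneg
    push Not at hneg
    nlinarith
  set m := -f0 / f1 with hm'
  have hfm : f0 = -(m * f1) := by rw [hm']; field_simp
  have below : ∀ x ∈ L, x 1 < t + m * (x 0 - (l0 + l1) / 2) := by
    intro x hx
    have e2 := h1 x hx
    rw [hf] at e2
    have e3 : f1 * x 1 < f1 * (t + m * (x 0 - (l0 + l1) / 2)) := by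
      rw [hfm] at e2 h2
      nlinarith
    exact lt_of_mul_lt_mul_left e3 hpos.le
  have bp := below _ hp
  have bq := below _ hq
  have yp0 := (hb _ hp).2.2
  have yq0 := (hb _ hq).2.2
  simp only [mk0, mk1] at bp bq yp0 yq0
  have hd : 0 < t - m * ((l1 - l0) / 2) - y0 := by nlinarith
  have hc' : 0 < t + m * ((l1 - l0) / 2) - y0 := by nlinarith
  have hl' : 0 < l1 - l0 := by linarith
  apply circ_of_quad (P l0 y0) (P l1 y0) (P l1 (t + m * ((l1 - l0) / 2)))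
    (P l0 (t - m * ((l1 - l0) / 2)))
  · simp only [orient, mk0, mk1]; nlinarith [mul_pos hl' hc']
  · simp only [orient, mk0, mk1]; nlinarith [mul_pos hl' hd]
  · simp only [orient, mk0, mk1]; nlinarith [mul_pos hl' hd]
  · simp only [orient, mk0, mk1]; nlinarith [mul_pos hl' hc']
  · intro x hx
    obtain ⟨b1, b2, b3⟩ := hb x hx
    have b4 := below x hx
    simp only [orient, mk0, mk1]
    refine ⟨?_, ?_, ?_, ?_⟩
    · nlinarith [mul_nonneg hl'.le (sub_nonneg.2 b3)]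
    · nlinarith [mul_nonneg hc'.le (sub_nonneg.2 b2)]
    · have e : (l0 - l1) * (x 1 - (t + m * ((l1 - l0) / 2))) -
          (t - m * ((l1 - l0) / 2) - (t + m * ((l1 - l0) / 2))) * (x 0 - l1) =
          (l1 - l0) * (t + m * (x 0 - (l0 + l1) / 2) - x 1) := by ring
      rw [e]
      exact mul_nonneg hl'.le (by linarith)
    · nlinarith [mul_nonneg hd.le (sub_nonneg.2 b1)]
  · simp only [orient, mk0, mk1]
    apply le_of_eq; ring

/-- the numbers -/
noncomputable def A0 : ℝ := 3.9999968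
noncomputable def s0 : ℝ := 0.9999984

/-- bodies for which the ratio is nearly `sqrt 2` -/
structure Ok (K : Set E2) (α β k : ℝ) : Prop extends Nm K α β where
  vol : volume K = ENNReal.ofReal k
  k1 : 2.828426 ≤ k
  k2 : k < 2.8284283
  nc : ¬ Circ K A0

lemma Ok.rot {K : Set E2} {α β k : ℝ} (h : Ok K α β k) : Ok (rot K) (-β) α k where
  toNm := h.toNm.rot
  vol := by rw [vol_rot, h.vol]
  k1 := h.k1
  k2 := h.k2
  nc := fun hc => h.nc (circ_rot hc)

lemma ok_of {K : Set E2} {α β k : ℝ} (h : Nm K α β) (hk : volume K = ENNReal.ofReal k)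
    (hk0 : 0 ≤ k) (hn : ¬ Circ K (c0 * k)) : Ok K α β k := by
  obtain ⟨h1, h2⟩ := stage1 h hk hk0 hn
  have hc0 : c0 = 1.414213 := rfl
  refine ⟨h, hk, ?_, ?_, ?_⟩
  · rw [hc0] at h1; linarith
  · rw [hc0] at h2; linarith
  · intro hc
    apply hn
    apply hc.mono
    rw [hc0] at h1
    rw [hc0]
    unfold A0
    linarith

/-- the upper point of the vertical middle chord -/
lemma Ok.pt {K : Set E2} {α β k : ℝ} (h : Ok K α β k) : P 0 s0 ∈ K := by
  obtain ⟨ha1, ha2, hb1, hb2⟩ := h.toNm.bd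
  have low : ∃ t' ≤ (0 : ℝ), P 0 t' ∈ K := by
    rcases le_total 0 α with ha | ha
    · refine ⟨(α * β - 1) / (1 + α), ?_, ?_⟩
      · apply div_nonpos_of_nonpos_of_nonneg
        · nlinarith
        · linarith
      · have hp : 0 < 1 + α := by linarith
        refine seg_mem h.cvx h.bot h.lft (α / (1 + α)) (by positivity) ?_ ?_ ?_
        · rw [div_le_one hp]; linarith
        · simp only [mk0]; field_simp; ring
        · simp only [mk1]; field_simp; ring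
    · refine ⟨(-(α * β) - 1) / (1 - α), ?_, ?_⟩
      · apply div_nonpos_of_nonpos_of_nonneg
        · nlinarith
        · linarith
      · have hp : 0 < 1 - α := by linarith
        refine seg_mem h.cvx h.bot h.rgt (-α / (1 - α)) (by
          apply div_nonneg <;> linarith) ?_ ?_ ?_
        · rw [div_le_one hp]; linarith
        · simp only [mk0]; field_simp; ring
        · simp only [mk1]; field_simp; ring
  obtain ⟨t', ht', hm⟩ := low
  by_contra hn
  apply h.nc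
  have := mc (l0 := -1) (l1 := 1) (y0 := -1) (t := s0) (t' := t') h.cpt h.cvx (by norm_num)
    (by intro x hx; obtain ⟨a1, a2, a3, _⟩ := h.box x hx; exact ⟨a1, a2, a3⟩) h.lft h.rgt
    (by norm_num; exact hm) (by unfold s0; linarith) (by norm_num; exact hn)
  apply this.mono
  unfold s0 A0
  norm_num

/-- the numbers of support in the diagonal directions -/
structure Mx (K : Set E2) (H1 H2 H3 H4 : ℝ) : Prop where
  b1 : ∀ x ∈ K, x 0 + x 1 ≤ H1
  b2 : ∀ x ∈ K, x 0 - x 1 ≤ H2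
  b3 : ∀ x ∈ K, -x 0 - x 1 ≤ H3
  b4 : ∀ x ∈ K, -x 0 + x 1 ≤ H4
  c1 : ∃ x ∈ K, x 0 + x 1 = H1
  c2 : ∃ x ∈ K, x 0 - x 1 = H2
  c3 : ∃ x ∈ K, -x 0 - x 1 = H3
  c4 : ∃ x ∈ K, -x 0 + x 1 = H4

lemma mem_rot' {K : Set E2} {x : E2} (hx : x ∈ K) : P (-x 1) (x 0) ∈ rot K := by
  rw [mem_rot]; simpa [eta2] using hx

lemma Mx.rot {K : Set E2} {H1 H2 H3 H4 : ℝ} (h : Mx K H1 H2 H3 H4) : Mx (rot K) H2 H3 H4 H1 where
  b1 := by intro x hx; have := h.b2 _ (mem_rot.1 hx); simp only [mk0, mk1] at this; linarith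
  b2 := by intro x hx; have := h.b3 _ (mem_rot.1 hx); simp only [mk0, mk1] at this; linarith
  b3 := by intro x hx; have := h.b4 _ (mem_rot.1 hx); simp only [mk0, mk1] at this; linarith
  b4 := by intro x hx; have := h.b1 _ (mem_rot.1 hx); simp only [mk0, mk1] at this; linarith
  c1 := by obtain ⟨x, hx, e⟩ := h.c2; exact ⟨_, mem_rot' hx, by simp only [mk0, mk1]; linarith⟩
  c2 := by obtain ⟨x, hx, e⟩ := h.c3; exact ⟨_, mem_rot' hx, by simp only [mk0, mk1]; linarith⟩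
  c3 := by obtain ⟨x, hx, e⟩ := h.c4; exact ⟨_, mem_rot' hx, by simp only [mk0, mk1]; linarith⟩
  c4 := by obtain ⟨x, hx, e⟩ := h.c1; exact ⟨_, mem_rot' hx, by simp only [mk0, mk1]; linarith⟩

lemma mx_exists {K : Set E2} (hc : IsCompact K) (hn : K.Nonempty) : ∃ H1 H2 H3 H4, Mx K H1 H2 H3 H4 := by
  obtain ⟨p1, hp1, m1⟩ := hc.exists_isMaxOn hn
    (f := fun x : E2 => x 0 + x 1) (by fun_prop)
  obtain ⟨p2, hp2, m2⟩ := hc.exists_isMaxOn hn
    (f := fun x : E2 => x 0 - x 1) (by fun_prop)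
  obtain ⟨p3, hp3, m3⟩ := hc.exists_isMaxOn hn
    (f := fun x : E2 => -x 0 - x 1) (by fun_prop)
  obtain ⟨p4, hp4, m4⟩ := hc.exists_isMaxOn hn
    (f := fun x : E2 => -x 0 + x 1) (by fun_prop)
  exact ⟨_, _, _, _, fun x hx => m1 hx, fun x hx => m2 hx, fun x hx => m3 hx, fun x hx => m4 hx,
    ⟨p1, hp1, rfl⟩, ⟨p2, hp2, rfl⟩, ⟨p3, hp3, rfl⟩, ⟨p4, hp4, rfl⟩⟩

/-- the area of the part in the first quadrant -/
noncomputable def qv (K : Set E2) : ℝ≥0∞ := volume (K ∩ {x | 0 ≤ x 0 ∧ 0 ≤ x 1})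

lemma quad_sum (K : Set E2) : qv K + qv (rot K) + qv (rot (rot K)) + qv (rot (rot (rot K))) ≤ volume K := by
  have e2 : qv (rot K) = volume (K ∩ {x | 0 ≤ x 0 ∧ x 1 ≤ 0}) := by
    unfold qv
    rw [← vol_rot (K ∩ {x | 0 ≤ x 0 ∧ x 1 ≤ 0})]
    congr 1
    ext x
    simp only [mem_rot, mem_inter_iff, mem_ofPred_eq, mk0, mk1]
    constructor
    · rintro ⟨a1, a2, a3⟩; exact ⟨a1, a3, by linarith⟩
    · rintro ⟨a1, a2, a3⟩; exact ⟨a1, by linarith, a2⟩
  have e3 : qv (rot (rot K)) = volume (K ∩ {x | x 0 ≤ 0 ∧ x 1 ≤ 0}) := by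
    unfold qv
    rw [← vol_rot (K ∩ {x | x 0 ≤ 0 ∧ x 1 ≤ 0}), ← vol_rot (rot (K ∩ {x | x 0 ≤ 0 ∧ x 1 ≤ 0}))]
    congr 1
    ext x
    simp only [mem_rot, mem_inter_iff, mem_ofPred_eq, mk0, mk1]
    constructor
    · rintro ⟨a1, a2, a3⟩; exact ⟨a1, by linarith, by linarith⟩
    · rintro ⟨a1, a2, a3⟩; exact ⟨a1, by linarith, by linarith⟩
  have e4 : qv (rot (rot (rot K))) = volume (K ∩ {x | x 0 ≤ 0 ∧ 0 ≤ x 1}) := by
    unfold qv
    rw [← vol_rot (K ∩ {x | x 0 ≤ 0 ∧ 0 ≤ x 1}), ← vol_rot (rot (K ∩ {x | x 0 ≤ 0 ∧ 0 ≤ x 1})),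
      ← vol_rot (rot (rot (K ∩ {x | x 0 ≤ 0 ∧ 0 ≤ x 1})))]
    congr 1
    ext x
    simp only [mem_rot, mem_inter_iff, mem_ofPred_eq, mk0, mk1]
    constructor
    · rintro ⟨a1, a2, a3⟩; exact ⟨a1, by linarith, by linarith⟩
    · rintro ⟨a1, a2, a3⟩; exact ⟨a1, by linarith, by linarith⟩
  rw [e2, e3, e4]
  exact split4 K 0 0

end Pool.Agent.R758.CQ
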