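import Pool.Agent.R758.CQ.Stage2

set_option autoImplicit false

open MeasureTheory Set
open scoped ENNReal

namespace Pool.Agent.R758.CQ

open Pool.Agent.Helper717.Hull1 (orient half_convex half_convex' tri_iff bary or_cyc or_swap' or_swap
  or_self1 or_self2 or_self3 line_null)

lemma cvx_quad (K : Set E2) (h : Convex ℝ K) : Convex ℝ (K ∩ {x : E2 | 0 ≤ x 0 ∧ 0 ≤ x 1}) := by
  have := h.inter ((cvx_0ge 0).inter (cvx_1ge 0))
  convert this using 1
  ext x; simp only [mem_inter_iff, mem_ofPred_eq]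

/-- the four points on the axes -/
lemma Ok.pts {K : Set E2} {α β k : ℝ} (h : Ok K α β k) :
    P 0 s0 ∈ K ∧ P s0 0 ∈ K ∧ P 0 (-s0) ∈ K ∧ P (-s0) 0 ∈ K := by
  refine ⟨h.pt, ?_, ?_, ?_⟩
  · have := mem_rot.1 h.rot.pt
    simpa using this
  · have := mem_rot.1 (mem_rot.1 h.rot.rot.pt)
    simpa using this
  · have := mem_rot.1 (mem_rot.1 (mem_rot.1 h.rot.rot.rot.pt))
    simpa using this

lemma Ok.zero {K : Set E2} {α β k : ℝ} (h : Ok K α β k) : P 0 0 ∈ K := by
  obtain ⟨h1, h2, h3, h4⟩ := h.pts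
  refine seg_mem h.cvx h1 h3 (1 / 2) (by norm_num) (by norm_num) ?_ ?_
  · simp only [mk0]; ring
  · simp only [mk1]; ring

lemma qv_lb {K : Set E2} {α β k : ℝ} (h : Ok K α β k) {c : E2} (hc : c ∈ K) (h0 : 0 ≤ c 0)
    (h1 : 0 ≤ c 1) : ENNReal.ofReal (s0 * (c 0 + c 1) / 2) ≤ qv K := by
  obtain ⟨p1, p2, p3, p4⟩ := h.pts
  have hs : 0 < s0 := by unfold s0; norm_num
  have := tri2c (cvx_quad K h.cvx) (o := P 0 0) (e := P s0 0) (c := c) (n := P 0 s0)
    ⟨h.zero, by simp⟩ ⟨p2, by simpa using hs.le⟩ ⟨hc, h0, h1⟩ ⟨p1, by simpa using hs.le⟩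
    (by simp only [orient, mk0, mk1]; nlinarith [mul_nonneg hs.le h1])
    (by simp only [orient, mk0, mk1]; nlinarith [mul_nonneg hs.le h0])
  unfold qv
  convert this using 3
  simp only [orient, mk0, mk1]; ring

lemma s0_le {K : Set E2} {α β k H1 H2 H3 H4 : ℝ} (h : Ok K α β k) (m : Mx K H1 H2 H3 H4) : s0 ≤ H1 := by
  have := m.b1 _ h.pt
  simpa using this

lemma qv_max {K : Set E2} {α β k H1 H2 H3 H4 : ℝ} (h : Ok K α β k) (m : Mx K H1 H2 H3 H4) :
    ENNReal.ofReal (s0 ^ 2 * H1 / 2) ≤ qv K := by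
  obtain ⟨c, hc, e⟩ := m.c1
  have hs : 0 < s0 := by unfold s0; norm_num
  have hs1 : s0 ≤ 1 := by unfold s0; norm_num
  have hH := s0_le h m
  have hb := h.box c hc
  by_cases h0 : 0 ≤ c 0 ∧ 0 ≤ c 1
  · refine le_trans (ENNReal.ofReal_le_ofReal ?_) (qv_lb h hc h0.1 h0.2)
    rw [e]
    have : 0 ≤ s0 * H1 * (1 - s0) := mul_nonneg (mul_nonneg hs.le (by linarith)) (by linarith)
    nlinarith
  · have hH1 : H1 ≤ 1 := by
      by_contra hgt
      push Not at hgt
      apply h0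
      constructor <;> linarith [hb.2.1, hb.2.2.2]
    refine le_trans (ENNReal.ofReal_le_ofReal ?_) (qv_lb h h.pt (by simp) (by simpa using hs.le))
    simp only [mk0, mk1]
    nlinarith [mul_nonneg (mul_nonneg hs.le hs.le) (sub_nonneg.2 hH1)]

/-- the box in the rotated coordinates -/
lemma circ_dbox {K : Set E2} {α β k H1 H2 H3 H4 : ℝ} (h : Ok K α β k) (m : Mx K H1 H2 H3 H4)
    (h2 : s0 ≤ H2) (h3 : s0 ≤ H3) (h4 : s0 ≤ H4) : Circ K ((H1 + H3) * (H2 + H4) / 2) := by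
  have h1 := s0_le h m
  have hs : 0 < s0 := by unfold s0; norm_num
  have p13 : 0 < H1 + H3 := by linarith
  have p24 : 0 < H2 + H4 := by linarith
  have pp := mul_pos p13 p24
  apply circ_of_quad (P ((H2 - H3) / 2) ((-H2 - H3) / 2)) (P ((H1 + H2) / 2) ((H1 - H2) / 2))
    (P ((H1 - H4) / 2) ((H1 + H4) / 2)) (P ((-H3 - H4) / 2) ((H4 - H3) / 2))
  · simp only [orient, mk0, mk1]; nlinarith
  · simp only [orient, mk0, mk1]; nlinarith
  · simp only [orient, mk0, mk1]; nlinarith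
  · simp only [orient, mk0, mk1]; nlinarith
  · intro x hx
    have b1 := mul_nonneg p24.le (sub_nonneg.2 (m.b1 x hx))
    have b2 := mul_nonneg p13.le (sub_nonneg.2 (m.b2 x hx))
    have b3 := mul_nonneg p24.le (sub_nonneg.2 (m.b3 x hx))
    have b4 := mul_nonneg p13.le (sub_nonneg.2 (m.b4 x hx))
    simp only [orient, mk0, mk1]
    refine ⟨?_, ?_, ?_, ?_⟩ <;> nlinarith
  · simp only [orient, mk0, mk1]; apply le_of_eq; ring

structure Nums (H1 H2 H3 H4 : ℝ) : Prop where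
  g1 : s0 ≤ H1
  g2 : s0 ≤ H2
  g3 : s0 ≤ H3
  g4 : s0 ≤ H4
  sum : H1 + H2 + H3 + H4 ≤ 5.65688
  prod : 7.9999936 < (H1 + H3) * (H2 + H4)

lemma nums {K : Set E2} {α β k H1 H2 H3 H4 : ℝ} (h : Ok K α β k) (m : Mx K H1 H2 H3 H4) :
    Nums H1 H2 H3 H4 := by
  have h2 := h.rot
  have h3 := h2.rot
  have h4 := h3.rot
  have m2 := m.rot
  have m3 := m2.rot
  have m4 := m3.rot
  have g1 := s0_le h m
  have g2 := s0_le h2 m2
  have g3 := s0_le h3 m3
  have g4 := s0_le h4 m4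
  refine ⟨g1, g2, g3, g4, ?_, ?_⟩
  · have q1 := qv_max h m
    have q2 := qv_max h2 m2
    have q3 := qv_max h3 m3
    have q4 := qv_max h4 m4
    have hs : 0 < s0 := by unfold s0; norm_num
    have t := (add_le_add (add_le_add (add_le_add q1 q2) q3) q4).trans (quad_sum K)
    have z1 : 0 ≤ H1 := by linarith
    have z2 : 0 ≤ H2 := by linarith
    have z3 : 0 ≤ H3 := by linarith
    have z4 : 0 ≤ H4 := by linarith
    rw [← ENNReal.ofReal_add (by positivity) (by positivity),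
      ← ENNReal.ofReal_add (by positivity) (by positivity),
      ← ENNReal.ofReal_add (by positivity) (by positivity)] at t
    have t2 := sup_le h.vol (by linarith [h.k1]) t
    have := h.k2
    have e : s0 = 0.9999984 := rfl
    rw [e] at t2
    linarith
  · by_contra hc
    push Not at hc
    apply h.nc
    apply (circ_dbox h m g2 g3 g4).mono
    unfold A0
    linarith

lemma Nums.rot {H1 H2 H3 H4 : ℝ} (n : Nums H1 H2 H3 H4) : Nums H2 H3 H4 H1 :=
  ⟨n.g2, n.g3, n.g4, n.g1, by linarith [n.sum], by have := n.prod; nlinarith⟩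

lemma Nums.U {H1 H2 H3 H4 : ℝ} (n : Nums H1 H2 H3 H4) :
    H1 + H3 < 2.838 ∧ H2 + H4 < 2.838 ∧ 2.8188 < H1 + H3 ∧ 2.8188 < H2 + H4 := by
  have h1 := n.sum
  have h2 := n.prod
  set U := H1 + H3 with hU
  set W := H2 + H4 with hW
  have h1' : U + W ≤ 5.65688 := by rw [hU, hW]; linarith
  have hs : s0 = 0.9999984 := rfl
  have pU : 0 < U := by rw [hU]; linarith [n.g1, n.g3, hs]
  have pW : 0 < W := by rw [hW]; linarith [n.g2, n.g4, hs]
  have a1 : U < 2.838 := by
    by_contra hc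
    push Not at hc
    nlinarith
  have a2 : W < 2.838 := by
    by_contra hc
    push Not at hc
    nlinarith
  refine ⟨a1, a2, ?_, ?_⟩ <;> nlinarith

/-- the point near the middle of the side of the diagonal box -/
lemma z1 {K : Set E2} {α β k H1 H2 H3 H4 : ℝ} (h : Ok K α β k) (m : Mx K H1 H2 H3 H4) :
    P ((2 * A0 / (H2 + H4) - H3 + (H2 - H4) / 2) / 2) ((2 * A0 / (H2 + H4) - H3 - (H2 - H4) / 2) / 2)
      ∈ K := by
  have n := nums h m
  obtain ⟨u1, u2, u3, u4⟩ := n.U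
  have hs : s0 = 0.9999984 := rfl
  have hA : A0 = 3.9999968 := rfl
  obtain ⟨p1, p2, p3, p4⟩ := h.pts
  have hW : 0 < H2 + H4 := by linarith
  have g1 := n.g1
  have g2 := n.g2
  have g3 := n.g3
  have g4 := n.g4
  rw [hs] at g1 g2 g3 g4
  have hAW : 2.8188 < 2 * A0 / (H2 + H4) := by
    rw [lt_div_iff₀ hW, hA]; nlinarith
  set L := fm (1 / 2) (1 / 2) (-1 / 2) (1 / 2) 0 0 ⁻¹' K with hL
  have hLm : ∀ z : E2, z ∈ L ↔ P ((z 0 + z 1) / 2) ((z 1 - z 0) / 2) ∈ K := by
    intro z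
    rw [hL, mem_preimage]
    have : fm (1 / 2) (1 / 2) (-1 / 2) (1 / 2) 0 0 z = P ((z 0 + z 1) / 2) ((z 1 - z 0) / 2) := by
      apply ext2
      · simp only [fm, mk0]; ring
      · simp only [fm, mk1]; ring
    rw [this]
  have hKL : ∀ x ∈ K, P (x 0 - x 1) (x 0 + x 1) ∈ L := by
    intro x hx
    rw [hLm]
    convert hx using 1
    apply ext2
    · simp only [mk0, mk1]; ring
    · simp only [mk0, mk1]; ring
  have hnc : ¬ Circ L (2 * A0) := by
    intro hc
    apply h.nc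
    have := circ_pre _ _ _ _ _ _ (by norm_num) hc
    apply this.mono
    norm_num
    linarith
  by_contra hz
  apply hnc
  obtain ⟨c2, hc2, e2⟩ := m.c2
  obtain ⟨c4, hc4, e4⟩ := m.c4
  have q2 := hKL c2 hc2
  have q4 := hKL c4 hc4
  rw [e2] at q2
  rw [show c4 0 - c4 1 = -H4 by linarith] at q4
  have hmid : P ((-H4 + H2) / 2) 0 ∈ L := by
    rw [hLm]
    simp only [mk0, mk1]
    have qa : P (s0 / 2) (-s0 / 2) ∈ K := by
      refine seg_mem h.cvx p2 p3 (1 / 2) (by norm_num) (by norm_num) ?_ ?_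
      · simp only [mk0]; ring
      · simp only [mk1]; ring
    have qb : P (-s0 / 2) (s0 / 2) ∈ K := by
      refine seg_mem h.cvx p4 p1 (1 / 2) (by norm_num) (by norm_num) ?_ ?_
      · simp only [mk0]; ring
      · simp only [mk1]; ring
    refine seg_mem h.cvx qb qa (((H2 - H4) / 2 + s0) / (2 * s0)) ?_ ?_ ?_ ?_
    · rw [hs]; apply div_nonneg <;> linarith
    · rw [hs, div_le_one (by norm_num)]; linarith
    · simp only [mk0]; rw [hs]; ring
    · simp only [mk1]; rw [hs]; ring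
  have := mc (l0 := -H4) (l1 := H2) (y0 := -H3) (t := 2 * A0 / (H2 + H4) - H3) (t' := 0)
    (compact_pre _ _ _ _ _ _ (by norm_num) h.cpt) (convex_pre _ _ _ _ _ _ h.cvx) (by linarith)
    (by
      intro z hz
      rw [← hL, hLm] at hz
      have b2 := m.b2 _ hz
      have b3 := m.b3 _ hz
      have b4 := m.b4 _ hz
      simp only [mk0, mk1] at b2 b3 b4
      refine ⟨?_, ?_, ?_⟩ <;> linarith) q4 q2 hmid (by linarith) (by
      intro hcon
      rw [← hL, hLm] at hcon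
      simp only [mk0, mk1] at hcon
      apply hz
      convert hcon using 2 <;> ring)
  apply this.mono
  apply le_of_eq
  field_simp
  ring

end Pool.Agent.R758.CQ
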