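import Pool.Agent.R758.CQ.Stage3

set_option autoImplicit false
set_option maxHeartbeats 4000000

open MeasureTheory Set
open scoped ENNReal

namespace Pool.Agent.R758.CQ

open Pool.Agent.Helper717.Hull1 (orient half_convex half_convex' tri_iff bary or_cyc or_swap' or_swap
  or_self1 or_self2 or_self3 line_null)

lemma top_line {K : Set E2} {α β k G1 G2 G3 G4 : ℝ} (h : Ok K α β k) (m : Mx K G1 G2 G3 G4)
    (hC : G1 + G4 ≤ G2 + G3) : ∀ y ∈ K, y 1 ≤ 1.001 - 0.2 * y 0 := by
  intro y hy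
  by_contra hlt
  push Not at hlt
  have n := nums h m
  obtain ⟨u1, u2, u3, u4⟩ := n.U
  have nprod := n.prod
  have nsum := n.sum
  have hs : s0 = 0.9999984 := rfl
  have hA : A0 = 3.9999968 := rfl
  obtain ⟨p1, p2, p3, p4⟩ := h.pts
  have g1 := n.g1
  have g2 := n.g2
  have g3 := n.g3
  have g4 := n.g4
  rw [hs] at g1 g2 g3 g4
  have z := z1 h m
  have q2 := qv_lb h.rot (z1 h.rot m.rot)
  have q3 := qv_lb h.rot.rot (z1 h.rot.rot m.rot.rot)
  have q4 := qv_lb h.rot.rot.rot (z1 h.rot.rot.rot m.rot.rot.rot)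
  simp only [mk0, mk1] at q2 q3 q4
  rw [add_comm G3 G1] at q2
  rw [add_comm G4 G2] at q3
  have hW : 0 < G2 + G4 := by linarith
  have hU : 0 < G1 + G3 := by linarith
  obtain ⟨p, hp⟩ : ∃ p, p = 2 * A0 / (G2 + G4) := ⟨_, rfl⟩
  obtain ⟨q, hq⟩ : ∃ q, q = 2 * A0 / (G1 + G3) := ⟨_, rfl⟩
  rw [← hp] at z q3
  rw [← hq] at q2 q4
  have hpW : p * (G2 + G4) = 7.9999936 := by rw [hp, hA]; field_simp; norm_num
  have hqU : q * (G1 + G3) = 7.9999936 := by rw [hq, hA]; field_simp; norm_num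
  have hUW : (G1 + G3) * (G2 + G4) ≤ 8.00007284 := by
    nlinarith [sq_nonneg (G1 + G3 - (G2 + G4))]
  have pU : p < G1 + G3 := by
    by_contra hc; push Not at hc
    nlinarith [mul_le_mul_of_nonneg_right hc hW.le]
  have qW : q < G2 + G4 := by
    by_contra hc; push Not at hc
    nlinarith [mul_le_mul_of_nonneg_right hc hU.le]
  have pU' : G1 + G3 - 0.00003 < p := by
    by_contra hc; push Not at hc
    nlinarith [mul_le_mul_of_nonneg_right hc hW.le]
  have qW' : G2 + G4 - 0.00003 < q := by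
    by_contra hc; push Not at hc
    nlinarith [mul_le_mul_of_nonneg_right hc hU.le]
  have hS : 5.65685 < G1 + G2 + G3 + G4 := by
    nlinarith [sq_nonneg (G1 + G3 - (G2 + G4))]
  obtain ⟨a, ha⟩ : ∃ a, a = (p - G3 + (G2 - G4) / 2) / 2 := ⟨_, rfl⟩
  obtain ⟨b, hb⟩ : ∃ b, b = (p - G3 - (G2 - G4) / 2) / 2 := ⟨_, rfl⟩
  rw [← ha, ← hb] at z
  have a0 : 0.2 < a := by rw [ha]; linarith
  have b0 : 0.2 < b := by rw [hb]; linarith
  have b1 : b < 0.71 := by rw [hb]; linarith
  have a1 : a ≤ 1 := by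
    have := (h.box _ z).2.1
    simpa using this
  have hab : a + b = p - G3 := by rw [ha, hb]; ring
  have hby := h.box y hy
  have hys := m.b1 y hy
  obtain ⟨X, hX⟩ : ∃ X, X = y 0 := ⟨_, rfl⟩
  obtain ⟨Y, hY⟩ : ∃ Y, Y = y 1 := ⟨_, rfl⟩
  rw [← hX, ← hY] at hlt hby hys
  have X0 : 0.005 < X := by linarith
  have Y0 : 0.8 < Y := by linarith
  have XY : X ≤ a + b + 0.00003 - Y := by linarith
  have sgn : 0 ≤ a * Y - b * X := by
    have t1 := mul_le_mul_of_nonneg_left XY (by linarith : 0 ≤ b)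
    have t2 : 0 ≤ (a + b - 0.3) * (Y - b - 0.01) := mul_nonneg (by linarith) (by linarith)
    nlinarith
  have qs : ENNReal.ofReal ((s0 * b + (a * Y - b * X) + X * s0) / 2) ≤ qv K := by
    have hs' : 0 < s0 := by rw [hs]; norm_num
    have := tri3c (cvx_quad K h.cvx) (o := P 0 0) (w0 := P s0 0) (w1 := P a b) (w2 := y)
      (w3 := P 0 s0) ⟨h.zero, by simp⟩ ⟨p2, by simpa using hs'.le⟩
      ⟨z, by simp only [mem_ofPred_eq, mk0, mk1]; constructor <;> linarith⟩
      ⟨hy, by rw [mem_ofPred_eq, ← hX, ← hY]; constructor <;> linarith⟩ ⟨p1, by simpa using hs'.le⟩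
      (by simp only [orient, mk0, mk1]; rw [hs]; linarith)
      (by simp only [orient, mk0, mk1]; rw [← hX, ← hY]; linarith)
      (by simp only [orient, mk0, mk1]; rw [← hX, ← hY, hs]; linarith)
      (by simp only [orient, mk0, mk1]; rw [hs]; linarith)
      (by
        intro hc
        have := congrArg (fun x : E2 => x 0) hc
        simp at this
        linarith)
    unfold qv
    convert this using 3
    simp only [orient, mk0, mk1]
    rw [← hX, ← hY]; ring
  have q2' := q2 (by linarith) (by linarith)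
  have q3' := q3 (by linarith) (by linarith)
  have q4' := q4 (by linarith) (by linarith)
  have t := (add_le_add (add_le_add (add_le_add qs q2') q3') q4').trans (quad_sum K)
  have r1 : 0 ≤ (s0 * b + (a * Y - b * X) + X * s0) / 2 := by
    rw [hs]; linarith
  have r2 : 0 ≤ s0 * ((q - G4 + (G3 - G1) / 2) / 2 + (q - G4 - (G3 - G1) / 2) / 2) / 2 := by
    rw [hs]; linarith
  have r3 : 0 ≤ s0 * ((p - G1 + (G4 - G2) / 2) / 2 + (p - G1 - (G4 - G2) / 2) / 2) / 2 := by
    rw [hs]; linarith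
  have r4 : 0 ≤ s0 * ((q - G2 + (G1 - G3) / 2) / 2 + (q - G2 - (G1 - G3) / 2) / 2) / 2 := by
    rw [hs]; linarith
  rw [← ENNReal.ofReal_add r1 r2, ← ENNReal.ofReal_add (by linarith) r3,
    ← ENNReal.ofReal_add (by linarith) r4] at t
  have t2 := sup_le h.vol (by linarith [h.k1]) t
  have hk2 := h.k2
  rw [hs] at t2
  have E1 : -0.2 * X ≤ a * (Y - 0.9999984) := by
    have : 0 ≤ a * (Y - 0.9999984 + 0.2 * X) := mul_nonneg (by linarith) (by linarith)
    have h' : 0 ≤ (1 - a) * (0.2 * X) := mul_nonneg (by linarith) (by linarith)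
    linarith
  have E2' : 0.28 * X ≤ X * (0.9999984 - b) := by
    have : 0 ≤ X * (0.7199984 - b) := mul_nonneg (by linarith) (by linarith)
    linarith
  have hab' : b = p - G3 - a := by linarith
  linarith

lemma final {K : Set E2} {α β k G1 G2 G3 G4 : ℝ} (h : Ok K α β k) (m : Mx K G1 G2 G3 G4)
    (hC : G1 + G4 ≤ G2 + G3) (hC' : G1 + G2 ≤ G3 + G4) : False := by
  have t := top_line h m hC
  have r := top_line h.rot m.rot (by linarith)
  apply h.nc
  apply circ_of_quad (P (-1) (-1)) (P 0.801 (-1)) (P 1.155 0.77) (P (-1) 1.201)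
  · simp only [orient, mk0, mk1]; norm_num
  · simp only [orient, mk0, mk1]; norm_num
  · simp only [orient, mk0, mk1]; norm_num
  · simp only [orient, mk0, mk1]; norm_num
  · intro x hx
    obtain ⟨h1, h2, h3, h4⟩ := h.box x hx
    have e1 := t x hx
    have e2 := r _ (mem_rot' hx)
    simp only [mk0, mk1] at e2
    simp only [orient, mk0, mk1]
    refine ⟨?_, ?_, ?_, ?_⟩ <;> linarith
  · simp only [orient, mk0, mk1]
    unfold A0
    norm_num

theorem nm_circ {K : Set E2} {α β k : ℝ} (h : Nm K α β) (hk : volume K = ENNReal.ofReal k)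
    (hk0 : 0 ≤ k) : Circ K (c0 * k) := by
  by_contra hn
  have ok := ok_of h hk hk0 hn
  obtain ⟨H1, H2, H3, H4, m⟩ := mx_exists h.cpt ⟨_, h.top⟩
  rcases le_total (H1 + H4) (H2 + H3) with e1 | e1 <;>
    rcases le_total (H1 + H2) (H3 + H4) with e2 | e2
  · exact final ok m e1 e2
  · exact final ok.rot.rot.rot m.rot.rot.rot (by linarith) (by linarith)
  · exact final ok.rot m.rot (by linarith) (by linarith)
  · exact final ok.rot.rot m.rot.rot (by linarith) (by linarith)

end Pool.Agent.R758.CQ
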